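import Pool.Agent.Helper65.TW.Defs
import Pool.Agent.Helper83.BR.ConeM

/-!
# TOWERS: cones have sieve points
-/

set_option autoImplicit false

namespace Pool.Agent.Helper62.TW

open NumberField Pool.Agent.Helper4.CB Pool.Agent.Helper69.CB
open Pool.Agent.Helper65.CL (Bad)
open Pool.Agent.Helper65.TW Pool.Agent.Helper83.BR Pool.Agent.Helper83.RelL

/-- a form at the points of a line through the origin -/
theorem aeval_line {K M : Type} [Field K] [Field M] [Algebra K M] {N : ℕ}
    {g : MvPolynomial (Fin N) K} {i : ℕ} (hg : g.IsHomogeneous i) (t : Fin N → M) :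
    MvPolynomial.aeval (fun j => Polynomial.X * Polynomial.C (t j)) g =
      Polynomial.X ^ i * Polynomial.C (MvPolynomial.aeval t g) := by
  rw [MvPolynomial.aeval_def, MvPolynomial.aeval_def, MvPolynomial.eval₂_eq',
    MvPolynomial.eval₂_eq', map_sum, Finset.mul_sum]
  refine Finset.sum_congr rfl fun m hm => ?_
  have h1 : ∑ j, m j = i := by
    have := hg (MvPolynomial.mem_support_iff.1 hm)
    rw [Finsupp.weight_apply, Finsupp.sum_fintype _ _ (by simp)] at this
    simpa using this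
  have h2 : ∏ j, (Polynomial.X * Polynomial.C (t j)) ^ m j =
      Polynomial.X ^ i * ∏ j, Polynomial.C (t j) ^ m j := by
    rw [← h1, ← Finset.prod_pow_eq_pow_sum, ← Finset.prod_mul_distrib]
    exact Finset.prod_congr rfl fun j _ => mul_pow _ _ _
  rw [h2, map_mul, map_prod]
  simp only [map_pow]
  rw [IsScalarTower.algebraMap_apply K M (Polynomial M)]
  rw [show (algebraMap M (Polynomial M)) = Polynomial.C from rfl]
  ring

/-- sieve points of a cone with dense `M`-points -/
theorem sum_cone {K : Type} [Field K] {M : Type} [Field M] [NumberField M] [Algebra K M] {N : ℕ}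
    (I : Ideal (MvPolynomial (Fin N) K)) [I.IsPrime]
    (hI : ∀ f ∈ I, ∀ d : ℕ, MvPolynomial.homogeneousComponent d f ∈ I)
    (hX : ∃ k, MvPolynomial.X k ∉ I) {Λ : Finset ℕ} (hΛ : ∀ l ∈ Λ, l.Prime)
    (hdense : ∀ f : MvPolynomial (Fin N) K ⧸ I, f ≠ 0 →
      ∃ φ : (MvPolynomial (Fin N) K ⧸ I) →ₐ[K] M, φ f ≠ 0) :
    SUM K M (MvPolynomial (Fin N) K ⧸ I) Λ
      (Ideal.span (Set.range fun k => Ideal.Quotient.mk I (MvPolynomial.X k))) := by
  classical
  have hΛ2 : ∀ l ∈ Λ, 2 ≤ l := fun l hl => (hΛ l hl).two_le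
  have hcone : ∀ φ : (MvPolynomial (Fin N) K ⧸ I) →ₐ[K] M,
      ∃ ψ : (MvPolynomial (Fin N) K ⧸ I) →ₐ[K] Polynomial M, ∀ l,
        ψ (Ideal.Quotient.mk I (MvPolynomial.X l)) =
          Polynomial.X * Polynomial.C (φ (Ideal.Quotient.mk I (MvPolynomial.X l))) := by
    intro φ
    obtain ⟨t, ht⟩ : ∃ t : Fin N → M, t = fun l => φ (Ideal.Quotient.mk I (MvPolynomial.X l)) :=
      ⟨_, rfl⟩
    have hφ : ∀ g : MvPolynomial (Fin N) K, MvPolynomial.aeval t g = φ (Ideal.Quotient.mk I g) := by
      intro g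
      have h1 : MvPolynomial.aeval t = φ.comp (Ideal.Quotient.mkₐ K I) := by
        refine MvPolynomial.algHom_ext fun l => ?_
        rw [MvPolynomial.aeval_X, ht]
        rfl
      rw [h1]
      rfl
    have hz : ∀ g ∈ I, MvPolynomial.aeval
        (fun j => (Polynomial.X : Polynomial M) * Polynomial.C (t j)) g = 0 := by
      intro g hg
      rw [← MvPolynomial.sum_homogeneousComponent g, map_sum]
      refine Finset.sum_eq_zero fun i _ => ?_
      rw [aeval_line (MvPolynomial.homogeneousComponent_isHomogeneous i g), hφ,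
        Ideal.Quotient.eq_zero_iff_mem.2 (hI g hg i), map_zero, map_zero, mul_zero]
    refine ⟨Ideal.Quotient.liftₐ I (MvPolynomial.aeval
      (fun j => (Polynomial.X : Polynomial M) * Polynomial.C (t j))) hz, fun l => ?_⟩
    have h2 : Ideal.Quotient.liftₐ I (MvPolynomial.aeval
      (fun j => (Polynomial.X : Polynomial M) * Polynomial.C (t j))) hz
        (Ideal.Quotient.mk I (MvPolynomial.X l)) = MvPolynomial.aeval
      (fun j => (Polynomial.X : Polynomial M) * Polynomial.C (t j)) (MvPolynomial.X l) := rfl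
    rw [h2, MvPolynomial.aeval_X, ht]
  obtain ⟨J, hJ⟩ := exists_nrmM (K := K) (M := M) hΛ2 (exists_scaleL M hΛ2 N)
    (fun l => Ideal.Quotient.mk I (MvPolynomial.X l)) (Pool.Agent.Helper35.Rel.gen_quot I) hcone
    hdense (by
      obtain ⟨k, hk⟩ := hX
      exact ⟨k, fun h => hk (Ideal.Quotient.eq_zero_iff_mem.1 h)⟩)
  refine ⟨Finset.univ.image fun l => Ideal.Quotient.mk I (MvPolynomial.X l),
    Finset.univ.image fun l => Ideal.Quotient.mk I (MvPolynomial.X l), J, ?_, ?_, ?_⟩
  · rw [Finset.coe_image, Finset.coe_univ, Set.image_univ]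
    exact Pool.Agent.Helper35.Rel.gen_quot I
  · rw [Finset.coe_image, Finset.coe_univ, Set.image_univ]
  · intro f hf
    obtain ⟨φ, h1, h2⟩ := hJ J le_rfl f hf
    refine ⟨φ, h2, fun p hp => ?_⟩
    obtain ⟨h3, l, h4⟩ := h1 p hp
    refine ⟨fun g hg => ?_, _, Finset.mem_image_of_mem _ (Finset.mem_univ l), h4⟩
    obtain ⟨k, -, rfl⟩ := Finset.mem_image.1 hg
    exact h3 k

/-- **T0.** cones -/
theorem su_cone {K : Type} [Field K] [NumberField K] {N : ℕ} (I : Ideal (MvPolynomial (Fin N) K))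
    [I.IsPrime] (hI : ∀ f ∈ I, ∀ d : ℕ, MvPolynomial.homogeneousComponent d f ∈ I)
    (hX : ∃ k, MvPolynomial.X k ∉ I) (hd : Pool.Agent.Helper35.Rel.DenseZeros I) :
    SU K (MvPolynomial (Fin N) K ⧸ I)
      (Ideal.span (Set.range fun k => Ideal.Quotient.mk I (MvPolynomial.X k))) := by
  intro Λ hΛ M _ _ _
  refine ⟨M, inferInstance, inferInstance, inferInstance, Algebra.id M, inferInstance,
    sum_cone I hI hX hΛ ?_⟩
  intro f hf
  obtain ⟨φ, hφ⟩ := Pool.Agent.Helper35.Rel.dense_cone I hI hd f hf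
  refine ⟨(Algebra.ofId K M).comp φ, ?_⟩
  rw [AlgHom.comp_apply]
  exact fun h => hφ ((map_eq_zero_iff _ (Algebra.ofId K M).injective).1 h)

open AlgebraicGeometry CategoryTheory Pool.Agent.Helper15

/-- points of a potentially dense affine scheme -/
theorem exists_points {K R : Type} [Field K] [CommRing R] [IsDomain R] [Algebra K R]
    (h : PotentiallyDense K (Spec (CommRingCat.of R))
      (Spec.map (CommRingCat.ofHom (algebraMap K R)))) :
    ∃ (L : Type) (_ : Field L) (_ : Algebra K L), FiniteDimensional K L ∧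
      ∀ f : R, f ≠ 0 → ∃ φ : R →ₐ[K] L, φ f ≠ 0 := by
  obtain ⟨L, iL, aL, hfin, hdense⟩ := h
  refine ⟨L, iL, aL, hfin, fun f hf => ?_⟩
  have hne : ((PrimeSpectrum.basicOpen f : TopologicalSpace.Opens (PrimeSpectrum R)) :
      Set (PrimeSpectrum R)).Nonempty :=
    ⟨⟨⊥, Ideal.isPrime_bot⟩, fun h0 => hf ((Submodule.mem_bot R).1 h0)⟩
  obtain ⟨x, hxf, p, hp, y, hy⟩ := hdense.inter_open_nonempty _
    (PrimeSpectrum.basicOpen f).isOpen hne
  have hpm : Spec.map (Spec.preimage p) = p := Spec.map_preimage p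
  obtain ⟨ψ, hψ⟩ : ∃ ψ : R →+* L, ψ = (Spec.preimage p).hom := ⟨_, rfl⟩
  have hψ2 : Spec.preimage p = CommRingCat.ofHom ψ := by rw [hψ]; rfl
  have hcomp : ψ.comp (algebraMap K R) = algebraMap K L := by
    have h1 : CommRingCat.ofHom (algebraMap K R) ≫ CommRingCat.ofHom ψ =
        CommRingCat.ofHom (algebraMap K L) := by
      apply Spec.map_injective
      rw [Spec.map_comp, ← hψ2, hpm, hp]
    have h2 := congrArg CommRingCat.Hom.hom h1
    exact h2
  refine ⟨{ ψ with commutes' := fun c => RingHom.congr_fun hcomp c }, ?_⟩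
  change ψ f ≠ 0
  intro h0
  have hyx : (Spec.map (CommRingCat.ofHom ψ)) y = x := by
    rw [← hψ2, hpm]; exact hy
  apply hxf
  have h3 : x = PrimeSpectrum.comap ψ y := hyx.symm
  rw [h3]
  change ψ f ∈ y.asIdeal
  rw [h0]
  exact Ideal.zero_mem _

/-- a common finite extension -/
theorem common2 (K : Type) [Field K] (M0 : Type) [Field M0] [NumberField M0]
    [Algebra K M0] (L : Type) [Field L] [Algebra K L] [FiniteDimensional K L] :
    ∃ (M : Type) (_ : Field M) (_ : NumberField M) (_ : Algebra K M) (_ : Algebra M0 M)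
      (_ : IsScalarTower K M0 M), Nonempty (L →ₐ[K] M) := by
  classical
  let f : L →ₐ[K] AlgebraicClosure M0 := IsAlgClosed.lift
  let b := Module.finBasis K L
  let E : IntermediateField M0 (AlgebraicClosure M0) :=
    IntermediateField.adjoin M0 (Set.range fun i => f (b i))
  have hE : FiniteDimensional M0 E :=
    IntermediateField.finiteDimensional_adjoin fun x _ => Algebra.IsIntegral.isIntegral x
  have hN : NumberField E := NumberField.of_module_finite M0 E
  have hmem : ∀ x : L, f x ∈ E := by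
    intro x
    rw [← b.sum_repr x, map_sum]
    refine sum_mem fun i _ => ?_
    rw [map_smul, Algebra.smul_def, IsScalarTower.algebraMap_apply K M0 (AlgebraicClosure M0)]
    exact mul_mem (E.algebraMap_mem _) (IntermediateField.subset_adjoin M0 _ ⟨i, rfl⟩)
  refine ⟨E, inferInstance, hN, inferInstance, inferInstance, inferInstance, ⟨?_⟩⟩
  exact
    { toFun := fun x => ⟨f x, hmem x⟩
      map_one' := Subtype.ext (map_one f)
      map_mul' := fun x y => Subtype.ext (map_mul f x y)
      map_zero' := Subtype.ext (map_zero f)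
      map_add' := fun x y => Subtype.ext (map_add f x y)
      commutes' := fun c => Subtype.ext (f.commutes c) }

/-- **Q2.** the base of the towers: potentially dense cones -/
theorem base_su {K : Type} [Field K] {N : ℕ} (I : Ideal (MvPolynomial (Fin N) K))
    [I.IsPrime] (hI : ∀ f ∈ I, ∀ d : ℕ, MvPolynomial.homogeneousComponent d f ∈ I)
    (hX : ∃ k, MvPolynomial.X k ∉ I)
    (hd : PotentiallyDense K (Spec (CommRingCat.of (MvPolynomial (Fin N) K ⧸ I)))
      (Spec.map (CommRingCat.ofHom (algebraMap K (MvPolynomial (Fin N) K ⧸ I))))) [NumberField K] :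
    SU K (MvPolynomial (Fin N) K ⧸ I)
      (Ideal.span (Set.range fun k => Ideal.Quotient.mk I (MvPolynomial.X k))) := by
  obtain ⟨L, iL, aL, hfin, hL⟩ := exists_points hd
  intro Λ hΛ M0 _ _ _
  obtain ⟨M, iM, nM, aM, aM0, hst, ⟨e⟩⟩ := common2 K M0 L
  refine ⟨M, iM, nM, aM, aM0, hst, sum_cone I hI hX hΛ fun f hf => ?_⟩
  obtain ⟨φ, hφ⟩ := hL f hf
  refine ⟨e.comp φ, ?_⟩
  rw [AlgHom.comp_apply]
  exact fun h => hφ ((map_eq_zero_iff _ e.injective).1 h)

end Pool.Agent.Helper62.TW
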