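import Pool.Agent.Helper62.TW.Cone
import Pool.Agent.Helper65.TW.Tower3
import Pool.Agent.Helper82.TW.BadUp
import Pool.Agent.Helper56.CL.TriF

/-!
# TOWERS: potentially dense integral points give sieve points
-/

set_option autoImplicit false

namespace Pool.Agent.Helper62.TW

open NumberField Pool.Agent.Helper4.CB Pool.Agent.Helper69.CB
open Pool.Agent.Helper65.CL (Bad)
open Pool.Agent.Helper65.TW
open Pool.Agent.Helper82.BR (below)

/-- a nonzero number which is not a unit at a place -/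
theorem exists_nonunit {L : Type} [Field L] [NumberField L] (v : Pl L) :
    ∃ x : L, x ≠ 0 ∧ vl v x ≠ 1 := by
  obtain ⟨y, hy, hy0⟩ := Submodule.exists_mem_ne_zero_of_ne_bot v.ne_bot
  refine ⟨(y : L), fun h => hy0 (by exact_mod_cast h), fun h => ?_⟩
  have h1 : v.valuation L (algebraMap (𝓞 L) L y) < 1 :=
    (IsDedekindDomain.HeightOneSpectrum.valuation_lt_one_iff_mem v y).2 hy
  exact absurd h h1.ne

/-- **P1.** -/
theorem int_su {K R : Type} [Field K] [NumberField K] [CommRing R] [Algebra K R] {t : Ideal R}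
    (h : IntPD K R t) : SU K R t := by
  classical
  obtain ⟨L, iL, nL, aL, G, τ, S, hS, hG, hτ, hφ⟩ := h
  intro Λ hΛ M0 _ _ _
  have hfin : FiniteDimensional K L := by
    have : IsScalarTower ℚ K L := inferInstance
    exact Module.Finite.right ℚ K L
  obtain ⟨M, iM, nM, aM, aM0, hst, ⟨e⟩⟩ := common2 K M0 L
  refine ⟨M, iM, nM, aM, aM0, hst, ?_⟩
  letI : Algebra L M := (e : L →+* M).toAlgebra
  choose x hx0 hx using exists_nonunit (L := L)
  obtain ⟨J, hJ⟩ := Pool.Agent.Helper56.CL.start M (fun l hl => (hΛ l hl).two_le)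
    (hS.toFinset.image fun v => e (x v)) 0
  refine ⟨G, τ, J, hG, hτ, fun f hf => ?_⟩
  obtain ⟨φ, hφf, hp⟩ := hφ f hf
  refine ⟨e.comp φ, ?_, fun w hw => ?_⟩
  · rw [AlgHom.comp_apply]
    exact fun h0 => hφf ((map_eq_zero_iff _ e.injective).1 h0)
  have hwS : below L w ∉ S := by
    intro hmem
    have h1 : vl w (e (x (below L w))) = 1 :=
      (hJ J le_rfl w hw).2 _ (Finset.mem_image_of_mem _ (hS.mem_toFinset.2 hmem))
        (fun h0 => hx0 _ ((map_eq_zero_iff _ e.injective).1 h0))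
    exact hx _ ((Pool.Agent.Helper82.TW.vl_below (M := L) w (x (below L w))).2.1 h1)
  obtain ⟨h1, y, hy, h2⟩ := hp (below L w) hwS
  refine ⟨fun g hg => ?_, y, hy, ?_⟩
  · exact (Pool.Agent.Helper82.TW.vl_below (M := L) w (φ g)).1.2 (h1 g hg)
  · exact (Pool.Agent.Helper82.TW.vl_below (M := L) w (φ y)).2.2 h2

end Pool.Agent.Helper62.TW
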